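import Pool.Agent.H187Z.EA9

open MeasureTheory ProbabilityTheory Filter Topology Pool.Agent.H187Z.EdgeAvg

/-- Positive answer to Q1. Independent rate one Poisson clocks on the edges `(x, i) = {x, x + e_i}`
of the lattice, and a bounded stationary initial field independent of the clocks (ergodicity is
not needed). Almost surely the edge-averaging trajectory exists, is unique, and converges at
every vertex. -/
theorem Pool.Agent.Results.MP_e8a7ad_pr.Convergence.result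
    (d : ℕ) (hd : 1 ≤ d) {Ω : Type*} [MeasurableSpace Ω] (μ : Measure Ω) [IsProbabilityMeasure μ]
    (R : (Fin d → ℤ) × Fin d → Ω → Set ℝ) (hR : ∀ e, IsPoissonClock μ (R e))
    (hind : iIndepFun (fun e ω (p : ℝ × ℝ) => cnt (R e ω) p.1 p.2) μ)
    (f0 : Ω → (Fin d → ℤ) → ℝ) (hf0 : Measurable f0)
    (hindf : IndepFun f0 (fun ω e (p : ℝ × ℝ) => cnt (R e ω) p.1 p.2) μ)
    (M : ℝ) (hM : ∀ᵐ ω ∂μ, ∀ v, |f0 ω v| ≤ M)
    (hstat : ∀ a : Fin d → ℤ, μ.map (fun ω v => f0 ω (v + a)) = μ.map f0) :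
    ∀ᵐ ω ∂μ, (∃ f, IsEdgeAveraging (fun e => R e ω) (f0 ω) f) ∧
      (∀ f g, IsEdgeAveraging (fun e => R e ω) (f0 ω) f →
        IsEdgeAveraging (fun e => R e ω) (f0 ω) g → ∀ t, 0 ≤ t → f t = g t) ∧
      ∀ f, IsEdgeAveraging (fun e => R e ω) (f0 ω) f →
        ∀ v, ∃ L, Tendsto (fun t => f t v) atTop (𝓝 L) :=
  Pool.Agent.H187Z.EA.main hd hR hind hf0 hindf hM hstat
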